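import Pool.Agent.Q110.BC.Final

/-!
# MP_08edbb_co, Q1: the characterisation of equality in `γ_b ≤ (5/4) ir_b` is false

`H` is a connected graph with 19 vertices and 20 edges (a path with 15 vertices, two triangles on
two of its edges and two leaves).  Its only `ir_b`-broadcast takes the value `1` on six vertices
which induce `3 K₂`, so every `ir_b`-broadcast of `H` has `V_f^+ = V_f^1` and `H[V_f^+] ≅ 3 K₂`;
but `ir_b(H) = 6` and `γ_b(H) = 7 ≠ (5/4) · 6`.

All definitions are in `Pool.Agent.Q110.BC.Defs` (and `f0` in `Pool.Agent.Q110.BC.Final`).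
-/

namespace Pool.Agent.Results.MP_08edbb_co.OddMatching

open Q110.BC

/-- The statement asked about in Q1, for connected graphs with at least two vertices:
`γ_b(G) = (5/4) ir_b(G)` holds if and only if every `ir_b`-broadcast `f` of `G` satisfies
`V_f^+ = V_f^1` and `G[V_f^+] ≅ r K₂` for some `r`. -/
def EqualityCharacterisation : Prop :=
  ∀ (V : Type) [Fintype V] [DecidableEq V] (G : SimpleGraph V), G.Connected →
    2 ≤ Fintype.card V →
    ((gammaB G : ℚ) = 5 / 4 * (irB G : ℚ) ↔
      ∀ f : V → ℕ, IsIrBBroadcast G f → IsMatchingBroadcast G f)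

/-- The graph `H` refutes the characterisation. -/
theorem result :
    (H.Connected ∧ irB H = 6 ∧ gammaB H = 7 ∧
      (∀ f : Fin 19 → ℕ, IsIrBBroadcast H f ↔ f = f0) ∧
      {v | 0 < f0 v} = {v | f0 v = 1} ∧
      Nonempty ((H.induce {v | 0 < f0 v}) ≃g rK2 3)) ∧
    ¬ EqualityCharacterisation := by
  refine ⟨⟨H_connected, irB_H, gammaB_H, isIrB_iff, ones_f0, ⟨iso0⟩⟩, ?_⟩
  intro h
  have h1 := (h (Fin 19) H H_connected (by simp)).mpr ?_
  · rw [irB_H, gammaB_H] at h1
    norm_num at h1
  · intro f hf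
    rw [isIrB_iff] at hf
    subst hf
    exact matching_f0

end Pool.Agent.Results.MP_08edbb_co.OddMatching
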